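import Pool.Agent.HK41.Gen

/-!
MP_3f0916_nt.  Random model: for a random set of integers with independent choices the Hankel
determinants of its elements vanish for few orders only.
-/

set_option autoImplicit false

namespace Pool.Agent.Results.MP_3f0916_nt.RandomModelDensity

open MeasureTheory ProbabilityTheory Filter Finset Pool.Agent.HK41

/-- Let `E m` be independent events with probabilities at most `ε m`, `ε` nonincreasing, and with
infinite sum. Almost surely the random set `{m | ω ∈ E m}` is infinite and, for all large `N`, at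
most `2 ∑_{t < 2N} ε t + 3 log N` of its Hankel determinants of order `n ≤ N` are zero. -/
theorem result (Ω : Type) [MeasurableSpace Ω] (μ : Measure Ω) [IsProbabilityMeasure μ]
    (E : ℕ → Set Ω) (ε : ℕ → ℝ) (hE : ∀ m, MeasurableSet (E m)) (hi : iIndepSet E μ)
    (hε : Antitone ε) (hp : ∀ m, μ.real (E m) ≤ ε m) (hs : ¬ Summable (fun m => μ.real (E m))) :
    ∀ᵐ ω ∂μ, {m | ω ∈ E m}.Infinite ∧ ∀ᶠ N : ℕ in atTop,
      ({n : ℕ | n ≤ N ∧ hd {m | ω ∈ E m} n = 0}.ncard : ℝ)
        ≤ 2 * ∑ t ∈ range (2 * N), ε t + 3 * Real.log N := by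
  filter_upwards [zeros_general hE hi hε hp, infinite_general hE hi hs] with ω h1 h2
  exact ⟨h2, h1 h2⟩

end Pool.Agent.Results.MP_3f0916_nt.RandomModelDensity
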