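import Pool.Agent.HK41.RunsG

/-!
MP_3f0916_nt.  Random model: nonzero Hankel determinants in short intervals, for a random set of
integers with independent choices.
-/

set_option autoImplicit false

namespace Pool.Agent.Results.MP_3f0916_nt.RandomModelRuns

open MeasureTheory ProbabilityTheory Filter Pool.Agent.HK41

/-- Let `E m` be independent events with probabilities at most `ε m`, `ε` nonincreasing and
eventually below `1`, and with infinite sum. Almost surely the random set `{m | ω ∈ E m}` is
infinite and, for all large `N`, some `n` with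
`N < n ≤ N + (log N + 2 log log N + 1) / log (1 / ε N) + 1` has a nonzero Hankel determinant. -/
theorem result (Ω : Type) [MeasurableSpace Ω] (μ : Measure Ω) [IsProbabilityMeasure μ]
    (E : ℕ → Set Ω) (ε : ℕ → ℝ) (hE : ∀ m, MeasurableSet (E m)) (hi : iIndepSet E μ)
    (hε : Antitone ε) (h1 : ∃ m, ε m < 1) (hp : ∀ m, μ.real (E m) ≤ ε m)
    (hs : ¬ Summable (fun m => μ.real (E m))) :
    ∀ᵐ ω ∂μ, {m | ω ∈ E m}.Infinite ∧ ∀ᶠ N : ℕ in atTop,
      ∃ n : ℕ, N < n ∧
        (n : ℝ) ≤ N + (Real.log N + 2 * Real.log (Real.log N) + 1) / Real.log (1 / ε N) + 1 ∧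
        hd {m | ω ∈ E m} n ≠ 0 :=
  runs_general hE hi hε hp hs h1

end Pool.Agent.Results.MP_3f0916_nt.RandomModelRuns
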